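import Pool.Agent.Y601.SSE.Ac0

set_option autoImplicit false
set_option linter.unusedSectionVars false

/-!
Reductions of small depth from parity to problems with a gap, in general: the instance is a list of
slots, and each slot is empty or has a content (for instance a constraint) which is computed from
few output bits. (Generalises `Pool/Agent/Y601/SSE/Ac0.lean`.)
-/

namespace Pool.Agent.R900.AC

open Finset DomAC0 H568R2 Pool.Agent.TH163.AC3 Pool.Agent.Y601.SSE
open scoped Classical

section count

variable {I : Type} [Fintype I] [DecidableEq I] {P W : Type} [Fintype P]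

/-- the number of the filled slots -/
noncomputable def filled (f : P → Option W) : ℕ := (univ.filter fun p => f p ≠ none).card

/-- the number of the filled slots of `f` which are different in `g` -/
noncomputable def chg (f g : P → Option W) : ℕ :=
  (univ.filter fun p => f p ≠ none ∧ g p ≠ f p).card

/-- the double counting -/
theorem count {s : ℕ} (G : (I → Bool) → P → Option W) (J : Finset I) (c : ℝ)
    (hne : ∀ x, 1 ≤ filled (G x))
    (hs : ∀ x p, (J.filter fun i => G (Y601.SSE.flip i x) p ≠ G x p).card ≤ s)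
    (hpair : ∀ i ∈ J, ∀ x, c * ((filled (G x) : ℝ) + filled (G (Y601.SSE.flip i x))) / 2 ≤
      (chg (G x) (G (Y601.SSE.flip i x)) : ℝ) + chg (G (Y601.SSE.flip i x)) (G x)) :
    c * J.card ≤ 2 * s := by
  have hlost : ∀ x, ∑ i ∈ J, chg (G x) (G (Y601.SSE.flip i x)) ≤ s * filled (G x) := by
    intro x
    unfold chg filled
    simp_rw [card_filter]
    rw [sum_comm]
    have h1 : ∀ p : P, ∑ i ∈ J, (if G x p ≠ none ∧ G (Y601.SSE.flip i x) p ≠ G x p then 1 else 0) ≤
        s * if G x p ≠ none then 1 else 0 := by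
      intro p
      by_cases hp : G x p ≠ none
      · rw [if_pos hp, mul_one, ← card_filter]
        refine le_trans (card_le_card fun i hi => ?_) (hs x p)
        rw [mem_filter] at hi ⊢
        exact ⟨hi.1, hi.2.2⟩
      · simp [hp]
    refine (sum_le_sum fun p _ => h1 p).trans ?_
    rw [← mul_sum]
  have hsum1 : ∑ x, ∑ i ∈ J, (chg (G x) (G (Y601.SSE.flip i x)) : ℝ) ≤ s * ∑ x, (filled (G x) : ℝ) := by
    rw [mul_sum]
    refine sum_le_sum fun x _ => ?_
    exact_mod_cast hlost x
  have hinv : ∀ (i : I) (f : (I → Bool) → ℝ), ∑ x, f (Y601.SSE.flip i x) = ∑ x, f x := by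
    intro i f
    exact Fintype.sum_equiv ⟨Y601.SSE.flip i, Y601.SSE.flip i, Y601.SSE.flip_flip i, Y601.SSE.flip_flip i⟩ _ _ fun x => rfl
  have hsum2 : ∀ i ∈ J, c * ∑ x, (filled (G x) : ℝ) ≤
      2 * ∑ x, (chg (G x) (G (Y601.SSE.flip i x)) : ℝ) := by
    intro i hi
    have h1 := sum_le_sum fun x (_ : x ∈ (univ : Finset (I → Bool))) => hpair i hi x
    rw [sum_add_distrib] at h1
    have h2 : ∑ x, (chg (G (Y601.SSE.flip i x)) (G x) : ℝ) = ∑ x, (chg (G x) (G (Y601.SSE.flip i x)) : ℝ) := by
      rw [← hinv i fun x => (chg (G x) (G (Y601.SSE.flip i x)) : ℝ)]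
      exact sum_congr rfl fun x _ => by rw [Y601.SSE.flip_flip]
    have h3 : ∑ x, c * ((filled (G x) : ℝ) + filled (G (Y601.SSE.flip i x))) / 2 =
        c * ∑ x, (filled (G x) : ℝ) := by
      rw [← sum_div, ← mul_sum, sum_add_distrib, hinv i fun x => (filled (G x) : ℝ)]
      ring
    rw [h2, h3] at h1
    linarith
  have hsum3 := sum_le_sum hsum2
  rw [sum_const, nsmul_eq_mul, ← mul_sum, sum_comm] at hsum3
  have hdpos : 0 < ∑ x, (filled (G x) : ℝ) := by
    apply sum_pos
    · intro x _
      have := hne x
      have h2 : 0 < filled (G x) := by omega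
      exact_mod_cast h2
    · exact univ_nonempty
  have h4 : (c * J.card) * ∑ x, (filled (G x) : ℝ) ≤ (2 * s) * ∑ x, (filled (G x) : ℝ) := by
    calc (c * J.card) * ∑ x, (filled (G x) : ℝ)
        = J.card * (c * ∑ x, (filled (G x) : ℝ)) := by ring
      _ ≤ 2 * ∑ x, ∑ i ∈ J, (chg (G x) (G (Y601.SSE.flip i x)) : ℝ) := hsum3
      _ ≤ 2 * (s * ∑ x, (filled (G x) : ℝ)) := by linarith
      _ = _ := by ring
  exact le_of_mul_le_mul_right h4 hdpos

end count

section main

/-- the contents of the slots computed by a circuit: `out p j` are the nodes that compute the bits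
of the slot `p`, `dec p` is its decoder -/
noncomputable def slots {N : ℕ} (C : Circuit (Fin N)) {P W : Type} {b : ℕ}
    (out : P → Fin b → Fin N ⊕ Fin C.size) (dec : P → (Fin b → Bool) → Option W)
    (x : Fin N → Bool) (p : P) : Option W := dec p fun j => C.nodeVal x (out p j)

/-- the parameters -/
theorem core {N : ℕ} (C : Circuit (Fin N)) {P W : Type} [Fintype P] {b : ℕ}
    (out : P → Fin b → Fin N ⊕ Fin C.size) (dec : P → (Fin b → Bool) → Option W) (h : ℕ)
    (hh : ∀ p j, C.nodeDepth (out p j) ≤ h) (c : ℝ) (hc : 0 ≤ c)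
    (hne : ∀ x, 1 ≤ filled (slots C out dec x))
    (hpair : ∀ x y : Fin N → Bool, ¬ Odd (univ.filter fun i => x i = true).card →
      Odd (univ.filter fun i => y i = true).card →
      c * ((filled (slots C out dec x) : ℝ) + filled (slots C out dec y)) / 2 ≤
        (chg (slots C out dec x) (slots C out dec y) : ℝ) +
          chg (slots C out dec y) (slots C out dec x))
    {s : ℕ} (hs : 1 ≤ s) (hcond : h * C.size * (24 * s) ^ h ≤ 2 ^ s) :
    c * N ≤ (24 * s) ^ (h + 1) * b := by
  have hs0 : (1 : ℝ) ≤ s := by exact_mod_cast hs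
  rcases Nat.eq_zero_or_pos N with hN | hN
  · subst hN
    simp only [Nat.cast_zero, mul_zero]
    positivity
  obtain ⟨ρ, hρ, hst⟩ := exists_restr C (by simpa using hN) hs h hcond
  rw [Fintype.card_fin] at hst
  obtain ⟨J, hJ⟩ : ∃ J : Finset (Fin N), J = univ.filter fun i => ρ i = none := ⟨_, rfl⟩
  rw [← hJ] at hst
  have hcount := count (s := b * s) (fun x => slots C out dec (ov ρ x)) J c
    (fun x => hne _) (fun x p => by
      have h1 : (J.filter fun i => slots C out dec (ov ρ (Y601.SSE.flip i x)) p ≠
          slots C out dec (ov ρ x) p) ⊆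
          (univ : Finset (Fin b)).biUnion fun j => J.filter fun i =>
            rs (fun x => C.nodeVal x (out p j)) ρ (Y601.SSE.flip i x) ≠
              rs (fun x => C.nodeVal x (out p j)) ρ x := by
        intro i hi
        rw [mem_filter] at hi
        rw [mem_biUnion]
        by_contra hcon
        push Not at hcon
        apply hi.2
        unfold slots
        congr 1
        funext j
        have h2 := hcon j (mem_univ j)
        rw [mem_filter, not_and, not_not] at h2
        exact h2 hi.1
      refine (card_le_card h1).trans (card_biUnion_le.trans ?_)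
      refine (Finset.sum_le_card_nsmul _ _ s fun j _ => ?_).trans (by
        rw [card_univ, Fintype.card_fin, smul_eq_mul])
      exact sens_le (node_dt C hs hρ (out p j) (hh p j)) J x) ?_
  · have h5 : c * J.card ≤ 2 * (b * s) := by
      have := hcount
      push_cast at this
      exact this
    calc c * N ≤ c * (4 * (24 * s) ^ h * J.card) := mul_le_mul_of_nonneg_left hst hc
      _ = 4 * (24 * s) ^ h * (c * J.card) := by ring
      _ ≤ 4 * (24 * s) ^ h * (2 * (b * s)) := mul_le_mul_of_nonneg_left h5 (by positivity)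
      _ ≤ (24 * s) ^ (h + 1) * b := by
        rw [pow_succ]
        have h6 : (0 : ℝ) ≤ (24 * s) ^ h * (s * b) := by positivity
        nlinarith
  · intro i hi x
    rw [hJ, mem_filter] at hi
    show c * ((filled (slots C out dec (ov ρ x)) : ℝ) +
      filled (slots C out dec (ov ρ (Y601.SSE.flip i x)))) / 2 ≤
      (chg (slots C out dec (ov ρ x)) (slots C out dec (ov ρ (Y601.SSE.flip i x))) : ℝ) +
        chg (slots C out dec (ov ρ (Y601.SSE.flip i x))) (slots C out dec (ov ρ x))
    rw [ov_flip ρ i hi.2]
    have hpar := odd_flip i (ov ρ x)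
    by_cases hodd : Odd (univ.filter fun j => ov ρ x j = true).card
    · have hev : ¬ Odd (univ.filter fun j => Y601.SSE.flip i (ov ρ x) j = true).card := by
        rw [hpar]; exact not_not.2 hodd
      have h1 := hpair _ _ hev hodd
      linarith
    · have hod : Odd (univ.filter fun j => Y601.SSE.flip i (ov ρ x) j = true).card := hpar.2 hodd
      exact hpair _ _ hodd hod

/-- Reductions of small depth from parity to a problem with a gap must be large. -/
theorem main (h : ℕ) : ∃ X0 : ℝ, 0 < X0 ∧ ∀ {N : ℕ} (C : Circuit (Fin N)) {P W : Type} [Fintype P]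
    {b : ℕ} (out : P → Fin b → Fin N ⊕ Fin C.size) (dec : P → (Fin b → Bool) → Option W) (c : ℝ),
    (∀ p j, C.nodeDepth (out p j) ≤ h) → 0 ≤ c →
    (∀ x, 1 ≤ filled (slots C out dec x)) →
    (∀ x y : Fin N → Bool, ¬ Odd (univ.filter fun i => x i = true).card →
      Odd (univ.filter fun i => y i = true).card →
      c * ((filled (slots C out dec x) : ℝ) + filled (slots C out dec y)) / 2 ≤
        (chg (slots C out dec x) (slots C out dec y) : ℝ) +
          chg (slots C out dec y) (slots C out dec x)) →
    X0 ≤ c * N / b →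
    (2 : ℝ) ^ ((c * N / b) ^ (1 / (h + 1 : ℝ)) / 100) ≤ C.size := by
  obtain ⟨Y0, hY48, hY0⟩ := exists_large h
  refine ⟨Y0 ^ (h + 1), by positivity, ?_⟩
  intro N C P W _ b out dec c hh hc hne hpair hX
  obtain ⟨X, hXd⟩ : ∃ X : ℝ, X = c * N / b := ⟨_, rfl⟩
  rw [← hXd] at hX ⊢
  obtain ⟨Y, hYd⟩ : ∃ Y : ℝ, Y = X ^ (1 / (h + 1 : ℝ)) := ⟨_, rfl⟩
  rw [← hYd]
  have hY00 : (0 : ℝ) ≤ Y0 := by linarith
  have hXpos' : 0 < X := lt_of_lt_of_le (by positivity) hX
  have hXpos : 0 ≤ X := hXpos'.le
  have hb : (0 : ℝ) < b := by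
    rcases Nat.eq_zero_or_pos b with h0 | h0
    · rw [hXd, h0] at hXpos'
      simp at hXpos'
    · exact_mod_cast h0
  have hYX : Y ^ (h + 1) = X := by
    rw [hYd, ← Real.rpow_natCast, ← Real.rpow_mul hXpos]
    push_cast
    rw [one_div, inv_mul_cancel₀ (by positivity), Real.rpow_one]
  have hYn : 0 ≤ Y := by rw [hYd]; exact Real.rpow_nonneg hXpos _
  have hYY : Y0 ≤ Y := by
    by_contra hcon
    push Not at hcon
    have := pow_lt_pow_left₀ hcon hYn (Nat.succ_ne_zero h)
    rw [Nat.succ_eq_add_one, hYX] at this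
    linarith
  have hY := hY0 Y hYY
  by_contra hcon
  push Not at hcon
  -- the depth of the decision trees
  obtain ⟨s, hs⟩ : ∃ s : ℕ, s = ⌈Y / 24⌉₊ - 1 := ⟨_, rfl⟩
  have hc1 : Y / 24 ≤ ⌈Y / 24⌉₊ := Nat.le_ceil _
  have hc2 : (⌈Y / 24⌉₊ : ℝ) < Y / 24 + 1 := Nat.ceil_lt_add_one (by positivity)
  have hc3 : 2 ≤ ⌈Y / 24⌉₊ := by
    have : (2 : ℝ) ≤ ⌈Y / 24⌉₊ := le_trans (by linarith) hc1
    exact_mod_cast this
  have hs1 : 1 ≤ s := by omega
  have hsr : (s : ℝ) = ⌈Y / 24⌉₊ - 1 := by
    rw [hs, Nat.cast_sub (by omega), Nat.cast_one]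
  have hs2 : 24 * (s : ℝ) < Y := by rw [hsr]; linarith
  have hs3 : Y / 24 - 1 ≤ s := by rw [hsr]; linarith
  have hlt : (24 * (s : ℝ)) ^ (h + 1) < X := by
    rw [← hYX]
    exact pow_lt_pow_left₀ hs2 (by positivity) (Nat.succ_ne_zero h)
  have hcond : h * C.size * (24 * s) ^ h ≤ 2 ^ s := by
    have h1 : ((h * C.size * (24 * s) ^ h : ℕ) : ℝ) ≤ ((2 ^ s : ℕ) : ℝ) := by
      push_cast
      calc (h : ℝ) * C.size * (24 * s) ^ h ≤ h * 2 ^ (Y / 100) * Y ^ h := by
            apply mul_le_mul _ (pow_le_pow_left₀ (by positivity) hs2.le h) (by positivity)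
              (by positivity)
            exact mul_le_mul_of_nonneg_left hcon.le (Nat.cast_nonneg _)
        _ = h * Y ^ h * 2 ^ (Y / 100) := by ring
        _ ≤ 2 ^ (Y / 24 - 1) := hY
        _ ≤ (2 : ℝ) ^ (s : ℝ) := Real.rpow_le_rpow_of_exponent_le (by norm_num) hs3
        _ = 2 ^ s := Real.rpow_natCast _ _
    exact_mod_cast h1
  have hcore := core C out dec h hh c hc hne hpair hs1 hcond
  have h9 : X * b = c * N := by rw [hXd]; field_simp
  have h10 := mul_lt_mul_of_pos_right hlt hb
  rw [h9] at h10
  linarith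

end main

section csp

variable {P W Λ : Type} [Fintype P]

/-- the number of the constraints in the slots of `f` which the labeling `l` satisfies -/
noncomputable def satn (S : Λ → W → Prop) (f : P → Option W) (l : Λ) : ℕ :=
  (univ.filter fun p => ∃ e, f p = some e ∧ S l e).card

/-- a yes instance and a no instance of a problem with constraints differ in many slots -/
theorem differ (S : Λ → W → Prop) (f g : P → Option W) (ε δ : ℝ) (hε : 0 ≤ ε) (hδ : 0 ≤ δ)
    (hyes : ∃ l, (1 - ε) * (filled f : ℝ) ≤ satn S f l)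
    (hno : ∀ l, (satn S g l : ℝ) ≤ δ * filled g) :
    (1 - ε - δ) * ((filled f : ℝ) + filled g) / 2 ≤ (chg f g : ℝ) + chg g f := by
  obtain ⟨l, hl⟩ := hyes
  have hl' := hno l
  -- satisfied constraints of `f`
  have h1 : satn S f l ≤ satn S g l + chg f g := by
    unfold satn chg
    refine le_trans (card_le_card ?_) (card_union_le _ _)
    intro p hp
    simp only [mem_filter, mem_univ, true_and, mem_union] at hp ⊢
    obtain ⟨e, he, hs⟩ := hp
    by_cases h : g p = f p
    · exact Or.inl ⟨e, by rw [h, he], hs⟩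
    · exact Or.inr ⟨by rw [he]; simp, h⟩
  -- violated constraints of `g`
  have h2 : filled g + satn S f l ≤ filled f + chg g f + satn S g l := by
    have e1 : filled g - satn S g l ≤ (filled f - satn S f l) + chg g f := by
      have e2 : ∀ k : P → Option W, filled k =
          (univ.filter fun p => k p ≠ none ∧ ¬ ∃ e, k p = some e ∧ S l e).card + satn S k l := by
        intro k
        unfold filled satn
        rw [← card_union_of_disjoint]
        · congr 1
          ext p
          simp only [mem_filter, mem_univ, true_and, mem_union]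
          constructor
          · intro h
            by_cases h' : ∃ e, k p = some e ∧ S l e
            · exact Or.inr h'
            · exact Or.inl ⟨h, h'⟩
          · rintro (h | ⟨e, he, -⟩)
            · exact h.1
            · rw [he]; simp
        · rw [disjoint_left]
          intro p hp hq
          simp only [mem_filter, mem_univ, true_and] at hp hq
          exact hp.2 hq
      have e3 : (univ.filter fun p => g p ≠ none ∧ ¬ ∃ e, g p = some e ∧ S l e).card ≤
          (univ.filter fun p => f p ≠ none ∧ ¬ ∃ e, f p = some e ∧ S l e).card + chg g f := by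
        unfold chg
        refine le_trans (card_le_card ?_) (card_union_le _ _)
        intro p hp
        simp only [mem_filter, mem_univ, true_and, mem_union] at hp ⊢
        by_cases h : f p = g p
        · exact Or.inl (by rw [h]; exact hp)
        · exact Or.inr ⟨hp.1, h⟩
      have e4 := e2 g
      have e5 := e2 f
      omega
    have e6 : satn S f l ≤ filled f := by
      unfold satn filled
      refine card_le_card fun p hp => ?_
      simp only [mem_filter, mem_univ, true_and] at hp ⊢
      obtain ⟨e, he, -⟩ := hp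
      rw [he]; simp
    omega
  have h1' : (satn S f l : ℝ) ≤ satn S g l + chg f g := by exact_mod_cast h1
  have h2' : (filled g : ℝ) + satn S f l ≤ filled f + chg g f + satn S g l := by exact_mod_cast h2
  have p1 : (0 : ℝ) ≤ chg f g := Nat.cast_nonneg _
  have p2 : (0 : ℝ) ≤ chg g f := Nat.cast_nonneg _
  rcases le_total (filled g : ℝ) (filled f) with h | h
  · have h3 : (1 - ε - δ) * (filled f : ℝ) ≤ chg f g := by
      have := mul_le_mul_of_nonneg_left h hδ
      nlinarith
    by_cases hc : 0 ≤ 1 - ε - δ
    · have := mul_le_mul_of_nonneg_left h hc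
      linarith
    · push Not at hc
      have : (1 - ε - δ) * ((filled f : ℝ) + filled g) ≤ 0 :=
        mul_nonpos_of_nonpos_of_nonneg hc.le (by positivity)
      linarith
  · have h3 : (1 - ε - δ) * (filled g : ℝ) ≤ chg g f := by
      have := mul_le_mul_of_nonneg_left h hε
      nlinarith
    by_cases hc : 0 ≤ 1 - ε - δ
    · have := mul_le_mul_of_nonneg_left h hc
      linarith
    · push Not at hc
      have : (1 - ε - δ) * ((filled f : ℝ) + filled g) ≤ 0 :=
        mul_nonpos_of_nonpos_of_nonneg hc.le (by positivity)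
      linarith

end csp

end Pool.Agent.R900.AC
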